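import Pool.Agent.Helper3_CIG.Tree

/-!
Counting: if the kernels of all sections lie in a finite normal subgroup, then few active vertices imply
slow growth.
-/

set_option autoImplicit false

namespace Pool.Agent.CIG.H3

open Finset Classical
open scoped Pointwise

variable {G : Type*} [Group G] {A : ℕ → Type} [MulAction G (∀ i, A i)] [∀ i, Fintype (A i)]

/-- At most `f N` elements have trivial section at a vertex. -/
lemma card_triv (hT : TreeAction G A) (b : ∀ i, A i) {Φ : Subgroup G} (hf : (Φ : Set G).Finite) {n : ℕ}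
    {v : ∀ i : Fin n, A i} (hK : Kv G v ≤ Φ) (B : Finset G) :
    (B.filter (fun g => Triv g v)).card ≤ Fintype.card (∀ i : Fin n, A i) * hf.toFinset.card := by
  refine Finset.card_le_mul_card_image_of_maps_to (f := fun g => (vact hT b n).toSMul.smul g v)
    (t := Finset.univ) (fun _ _ => mem_univ _) hf.toFinset.card ?_ |>.trans ?_
  · intro w _
    rcases ((B.filter (fun g => Triv g v)).filter
      (fun g => (vact hT b n).toSMul.smul g v = w)).eq_empty_or_nonempty with h0 | ⟨g0, h0⟩
    · rw [h0]; simp
    · rw [mem_filter, mem_filter] at h0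
      refine Finset.card_le_card_of_injOn (fun g => g0⁻¹ * g) ?_ ?_
      · intro g hg
        rw [mem_coe, mem_filter, mem_filter] at hg
        rw [mem_coe, Set.Finite.mem_toFinset]
        exact hK (triv_eq hT b h0.1.2 hg.1.2 (h0.2.trans hg.2.symm))
      · intro g _ h _ e
        exact mul_left_cancel e
  · rw [mul_comm, Finset.card_univ]

/-- The number of active vertices. -/
noncomputable def act (g : G) (n : ℕ) : ℕ :=
  ((Finset.univ : Finset (∀ i : Fin n, A i)).filter (fun v => ¬ Triv g v)).card

lemma act_eq (g : G) (n : ℕ) : act (A := A) g n = (active (A := A) g n).ncard := by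
  unfold act
  rw [← Set.ncard_coe_finset]
  congr 1
  ext v
  simp [triv_iff]

lemma act_one (n : ℕ) : act (A := A) (1 : G) n = 0 := by
  unfold act
  rw [Finset.card_eq_zero, Finset.filter_eq_empty_iff]
  intro v _ h
  exact h triv_one

lemma act_mul (hT : TreeAction G A) (b : ∀ i, A i) (g h : G) (n : ℕ) :
    act (A := A) (g * h) n ≤ act (A := A) g n + act (A := A) h n := by
  unfold act
  let := vact hT b n
  have h1 : ((Finset.univ : Finset (∀ i : Fin n, A i)).filter (fun v => ¬ Triv (g * h) v)) ⊆
      ((Finset.univ : Finset (∀ i : Fin n, A i)).filter (fun v => ¬ Triv g v)).image (fun v => h⁻¹ • v) ∪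
      ((Finset.univ : Finset (∀ i : Fin n, A i)).filter (fun v => ¬ Triv h v)) := by
    intro v hv
    rw [mem_filter] at hv
    rw [mem_union, mem_image, mem_filter]
    by_contra hcon
    rw [not_or] at hcon
    apply hv.2
    have h2 : Triv h v := by
      by_contra h3
      exact hcon.2 ⟨mem_univ _, h3⟩
    refine triv_mul hT b h2 ?_
    by_contra h3
    exact hcon.1 ⟨h • v, by rw [mem_filter]; exact ⟨mem_univ _, h3⟩, inv_smul_smul h v⟩
  refine (card_le_card h1).trans ((card_union_le _ _).trans ?_)
  exact Nat.add_le_add_right card_image_le _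

lemma act_inv (hT : TreeAction G A) (b : ∀ i, A i) (g : G) (n : ℕ) :
    act (A := A) g⁻¹ n ≤ act (A := A) g n := by
  unfold act
  let := vact hT b n
  have h1 : ((Finset.univ : Finset (∀ i : Fin n, A i)).filter (fun v => ¬ Triv g⁻¹ v)) ⊆
      ((Finset.univ : Finset (∀ i : Fin n, A i)).filter (fun v => ¬ Triv g v)).image (fun v => g • v) := by
    intro v hv
    rw [mem_filter] at hv
    rw [mem_image]
    refine ⟨g⁻¹ • v, ?_, smul_inv_smul g v⟩
    rw [mem_filter]
    refine ⟨mem_univ _, fun h3 => hv.2 ?_⟩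
    exact triv_inv hT b h3
  exact (card_le_card h1).trans card_image_le

lemma act_ball (hT : TreeAction G A) (b : ∀ i, A i) {S : Finset G} {n a : ℕ}
    (ha : ∀ s ∈ S, act (A := A) s n ≤ a) (r : ℕ) :
    ∀ g ∈ (S ∪ S⁻¹ ∪ {1}) ^ r, act (A := A) g n ≤ r * a := by
  induction r with
  | zero =>
    intro g hg
    rw [pow_zero, Finset.mem_one] at hg
    rw [hg, act_one]; simp
  | succ r ih =>
    intro g hg
    rw [pow_succ, Finset.mem_mul] at hg
    obtain ⟨x, hx, y, hy, rfl⟩ := hg
    have h1 := ih x hx
    have h2 : act (A := A) y n ≤ a := by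
      rw [mem_union, mem_union, mem_singleton, Finset.mem_inv] at hy
      rcases hy with (hy | ⟨z, hz, rfl⟩) | rfl
      · exact ha y hy
      · exact (act_inv hT b z n).trans (ha z hz)
      · rw [act_one]; exact Nat.zero_le _
    have h3 := act_mul hT b x y n
    rw [Nat.succ_mul]
    omega

/-- **The growth inequality.** -/
theorem growth_le (hT : TreeAction G A) (b : ∀ i, A i) {Φ : Subgroup G} (hf : (Φ : Set G).Finite) {n : ℕ}
    (hK : ∀ v : ∀ i : Fin n, A i, Kv G v ≤ Φ) {S : Finset G} {a r : ℕ}
    (ha : ∀ s ∈ S, act (A := A) s n ≤ a) (hr : 2 * r * a ≤ Fintype.card (∀ i : Fin n, A i)) :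
    ((S ∪ S⁻¹ ∪ {1}) ^ r).card ≤ 2 * hf.toFinset.card * Fintype.card (∀ i : Fin n, A i) := by
  set B := (S ∪ S⁻¹ ∪ {1}) ^ r with hB
  set N := Fintype.card (∀ i : Fin n, A i) with hN
  have hN0 : 0 < N := Fintype.card_pos_iff.2 ⟨pre n b⟩
  have h1 : ∑ g ∈ B, ((Finset.univ : Finset (∀ i : Fin n, A i)).filter (fun v => Triv g v)).card =
      ∑ v : (∀ i : Fin n, A i), (B.filter (fun g => Triv g v)).card := by
    simp_rw [Finset.card_filter]
    rw [Finset.sum_comm]
  have h2 : ∑ v : (∀ i : Fin n, A i), (B.filter (fun g => Triv g v)).card ≤ N * (N * hf.toFinset.card) := by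
    refine (Finset.sum_le_card_nsmul _ _ (N * hf.toFinset.card) (fun v _ => ?_)).trans ?_
    · exact card_triv hT b hf (hK v) B
    · rw [Finset.card_univ, smul_eq_mul]
  have h3 : B.card * (N - r * a) ≤
      ∑ g ∈ B, ((Finset.univ : Finset (∀ i : Fin n, A i)).filter (fun v => Triv g v)).card := by
    rw [← smul_eq_mul]
    refine Finset.card_nsmul_le_sum _ _ _ (fun g hg => ?_)
    have h4 := act_ball hT b ha r g hg
    have h5 := Finset.card_filter_add_card_filter_not (s := (Finset.univ : Finset (∀ i : Fin n, A i)))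
      (fun v => Triv g v)
    unfold act at h4
    rw [Finset.card_univ] at h5
    omega
  have h6 : B.card * (N - r * a) ≤ N * (N * hf.toFinset.card) := by
    rw [← h1] at h2
    exact h3.trans h2
  have h7 : N ≤ 2 * (N - r * a) := by
    have : 2 * r * a = 2 * (r * a) := by ring
    omega
  have h8 : B.card * N ≤ (2 * hf.toFinset.card * N) * N := by
    calc B.card * N ≤ B.card * (2 * (N - r * a)) := Nat.mul_le_mul_left _ h7
      _ = 2 * (B.card * (N - r * a)) := by ring
      _ ≤ 2 * (N * (N * hf.toFinset.card)) := Nat.mul_le_mul_left _ h6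
      _ = (2 * hf.toFinset.card * N) * N := by ring
  exact Nat.le_of_mul_le_mul_right h8 hN0

end Pool.Agent.CIG.H3
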