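import Mathlib

/-!
Groups acting on the infinite words of a spherically homogeneous rooted tree: sections, kernels, counting.
-/

set_option autoImplicit false

namespace Pool.Agent.CIG.H3

open Finset

/-- Words with the same first `n` letters are sent to words with the same first `n` letters. -/
def TreeAction (G : Type*) [Group G] (A : ℕ → Type) [MulAction G (∀ i, A i)] : Prop :=
  ∀ (g : G) (n : ℕ) (x y : ∀ i, A i), (∀ i < n, x i = y i) → ∀ i < n, (g • x) i = (g • y) i

/-- The action is transitive on the words of length `n`, for each `n`. -/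
def LevelTransitive (G : Type*) [Group G] (A : ℕ → Type) [MulAction G (∀ i, A i)] : Prop :=
  ∀ (n : ℕ) (x y : ∀ i, A i), ∃ g : G, ∀ i < n, (g • x) i = y i

/-- The vertex of level `n` on the ray `x`. -/
def pre {A : ℕ → Type} (n : ℕ) (x : ∀ i, A i) : ∀ i : Fin n, A i := fun i => x i

/-- The vertices of level `n` at which `g` has a nontrivial section: `g` changes a letter with index `≥ n` of
some infinite word through the vertex. -/
def active {G : Type*} [Group G] {A : ℕ → Type} [MulAction G (∀ i, A i)] (g : G) (n : ℕ) :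
    Set (∀ i : Fin n, A i) :=
  {v | ∃ x : ∀ i, A i, pre n x = v ∧ ∃ i, n ≤ i ∧ (g • x) i ≠ x i}

variable {G : Type*} [Group G] {A : ℕ → Type} [MulAction G (∀ i, A i)]

lemma pre_eq_iff {n : ℕ} {x y : ∀ i, A i} : pre n x = pre n y ↔ ∀ i < n, x i = y i := by
  constructor
  · intro h i hi
    exact congrFun h ⟨i, hi⟩
  · intro h
    funext i
    exact h i i.2

/-- A ray through a vertex. -/
noncomputable def ext (b : ∀ i, A i) {n : ℕ} (v : ∀ i : Fin n, A i) : ∀ i, A i :=
  fun i => if h : i < n then v ⟨i, h⟩ else b i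

lemma pre_ext (b : ∀ i, A i) {n : ℕ} (v : ∀ i : Fin n, A i) : pre n (ext b v) = v := by
  funext i
  simp [pre, ext]

/-- The action on a level. -/
@[instance_reducible]
noncomputable def vact (hT : TreeAction G A) (b : ∀ i, A i) (n : ℕ) : MulAction G (∀ i : Fin n, A i) where
  smul g v := pre n (g • ext b v)
  one_smul v := by
    show pre n ((1 : G) • ext b v) = v
    rw [one_smul, pre_ext]
  mul_smul g h v := by
    show pre n ((g * h) • ext b v) = pre n (g • ext b (pre n (h • ext b v)))
    rw [mul_smul]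
    rw [pre_eq_iff]
    apply hT
    rw [← pre_eq_iff, pre_ext]

lemma vact_pre (hT : TreeAction G A) (b : ∀ i, A i) (n : ℕ) (g : G) (x : ∀ i, A i) :
    (vact hT b n).toSMul.smul g (pre n x) = pre n (g • x) := by
  show pre n (g • ext b (pre n x)) = pre n (g • x)
  rw [pre_eq_iff]
  apply hT
  rw [← pre_eq_iff, pre_ext]

/-- The elements which fix all rays through the vertex. -/
def Kv (G : Type*) [Group G] {A : ℕ → Type} [MulAction G (∀ i, A i)] {n : ℕ} (v : ∀ i : Fin n, A i) :
    Subgroup G where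
  carrier := {g | ∀ x, pre n x = v → g • x = x}
  one_mem' x _ := one_smul G x
  mul_mem' {a b} ha hb x hx := by rw [mul_smul, hb x hx, ha x hx]
  inv_mem' {a} ha x hx := by
    rw [inv_smul_eq_iff]
    exact (ha x hx).symm

lemma mem_Kv {n : ℕ} {v : ∀ i : Fin n, A i} {g : G} : g ∈ Kv G v ↔ ∀ x, pre n x = v → g • x = x := Iff.rfl

/-- The section of `g` at `v` is trivial. -/
def Triv (g : G) {n : ℕ} (v : ∀ i : Fin n, A i) : Prop :=
  ∀ x : ∀ i, A i, pre n x = v → ∀ i, n ≤ i → (g • x) i = x i

lemma triv_iff {g : G} {n : ℕ} {v : ∀ i : Fin n, A i} : Triv g v ↔ v ∉ active g n := by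
  unfold Triv active
  simp only [Set.mem_ofPred_eq, not_exists, not_and]
  constructor
  · intro h x hx i hi
    rw [not_not]
    exact h x hx i hi
  · intro h x hx i hi
    have := h x hx i hi
    rwa [not_not] at this

lemma triv_one {n : ℕ} {v : ∀ i : Fin n, A i} : Triv (1 : G) v := by
  intro x _ i _
  rw [one_smul]

lemma triv_mul (hT : TreeAction G A) (b : ∀ i, A i) {g h : G} {n : ℕ} {v : ∀ i : Fin n, A i} (h1 : Triv h v)
    (h2 : Triv g ((vact hT b n).toSMul.smul h v)) : Triv (g * h) v := by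
  intro x hx i hi
  rw [mul_smul, h2 (h • x) ?_ i hi, h1 x hx i hi]
  rw [← vact_pre hT b, hx]

lemma triv_inv (hT : TreeAction G A) (b : ∀ i, A i) {g : G} {n : ℕ} {v : ∀ i : Fin n, A i}
    (h1 : Triv g ((vact hT b n).toSMul.smul g⁻¹ v)) : Triv g⁻¹ v := by
  intro x hx i hi
  have := h1 (g⁻¹ • x) (by rw [← vact_pre hT b, hx]) i hi
  rw [smul_inv_smul] at this
  exact this.symm

/-- Two elements with trivial section at `v` and the same value at `v` differ by an element fixing all rays
through `v`. -/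
lemma triv_eq (hT : TreeAction G A) (b : ∀ i, A i) {g h : G} {n : ℕ} {v : ∀ i : Fin n, A i} (h1 : Triv g v)
    (h2 : Triv h v) (he : (vact hT b n).toSMul.smul g v = (vact hT b n).toSMul.smul h v) :
    g⁻¹ * h ∈ Kv G v := by
  intro x hx
  rw [mul_smul, inv_smul_eq_iff]
  funext i
  by_cases hi : i < n
  · rw [← hx, vact_pre hT b, vact_pre hT b] at he
    exact ((pre_eq_iff.1 he) i hi).symm
  · rw [h2 x hx i (by omega), h1 x hx i (by omega)]

lemma Kv_conj (hT : TreeAction G A) (b : ∀ i, A i) {g k : G} {n : ℕ} {v : ∀ i : Fin n, A i}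
    (hk : k ∈ Kv G v) : g * k * g⁻¹ ∈ Kv G ((vact hT b n).toSMul.smul g v) := by
  intro x hx
  have h1 : pre n (g⁻¹ • x) = v := by
    rw [← vact_pre hT b, hx]
    let := vact hT b n
    exact inv_smul_smul g v
  rw [mul_smul, mul_smul, hk _ h1, smul_inv_smul]

end Pool.Agent.CIG.H3
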